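import Pool.Agent.H93.ES.Targets
import Pool.Agent.H91.BS.ESM

/-!
The large sieve for the classes modulo the primes of an octave (row LSV).
-/

set_option autoImplicit false

open Finset Pool.Agent.H18.MR Pool.Agent.H93.DE Pool.Agent.H6.N4D Pool.Agent.H93
  Pool.Agent.H93.ES

namespace Pool.Agent.H97.ESS

open ComplexConjugate

lemma ee_neg_conj (x : ℝ) : conj (ee x) = ee (-x) := by
  unfold ee
  rw [← Complex.exp_conj, map_mul, Complex.conj_I, Complex.conj_ofReal]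
  congr 1
  push_cast
  ring

/-- the distance of a fraction which is not an integer from the integers -/
lemma nd_frac (n : ℤ) (D : ℕ) (hD : 0 < D) (h : ¬ (D : ℤ) ∣ n) :
    1 / (D : ℝ) ≤ nd ((n : ℝ) / D) := by
  obtain ⟨k, hk⟩ := exists_int ((n : ℝ) / D)
  rw [← hk]
  have hD' : (0 : ℝ) < D := by exact_mod_cast hD
  have h1 : (n : ℝ) / D - k = ((n - k * D : ℤ) : ℝ) / D := by
    push_cast
    field_simp
  rw [h1, abs_div, abs_of_pos hD']
  apply div_le_div_of_nonneg_right _ hD'.le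
  have h2 : n - k * D ≠ 0 := by
    intro h3
    apply h
    exact ⟨k, by linarith⟩
  have h3 : 1 ≤ |n - k * D| := Int.one_le_abs h2
  exact_mod_cast h3

lemma geo0 (δ : ℝ) (hδ : 0 < nd δ) (m : ℕ) :
    ‖∑ x ∈ range m, ee (δ * (x : ℝ))‖ ≤ 1 / (2 * nd δ) := by
  have h := Pool.Agent.H91.BS.geo_bound δ hδ 0 m
  simpa using h

/-- orthogonality -/
lemma orth (q : ℕ) (hq : 0 < q) (n : ℤ) (h : ¬ (q : ℤ) ∣ n) :
    ∑ r ∈ range q, ee ((n : ℝ) / q * (r : ℝ)) = 0 := by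
  have hq' : (q : ℝ) ≠ 0 := by exact_mod_cast hq.ne'
  have h1 := Pool.Agent.H91.BS.geo_tel ((n : ℝ) / q) 0 q
  have h2 : ee ((n : ℝ) / q * ((0 + q : ℕ) : ℝ)) - ee ((n : ℝ) / q * ((0 : ℕ) : ℝ)) = 0 := by
    have h3 : (n : ℝ) / q * ((0 + q : ℕ) : ℝ) = (n : ℝ) := by
      push_cast
      field_simp
      ring
    rw [h3, ee_int]
    have h4 : (n : ℝ) / q * ((0 : ℕ) : ℝ) = ((0 : ℤ) : ℝ) := by push_cast; ring
    rw [h4, ee_int, sub_self]
  rw [h2] at h1
  rcases mul_eq_zero.1 h1 with h3 | h3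
  · simpa using h3
  · exfalso
    have h4 := Pool.Agent.H91.BS.four_nd_le ((n : ℝ) / q)
    rw [h3, norm_zero] at h4
    have h5 := nd_frac n q hq h
    have h6 : (0 : ℝ) < 1 / (q : ℝ) := by positivity
    linarith

lemma nsq_eq (z : ℂ) : ((‖z‖ ^ 2 : ℝ) : ℂ) = z * conj z := by
  rw [Complex.mul_conj, Complex.normSq_eq_norm_sq]

/-- Parseval -/
lemma pars (q : ℕ) (hq : 0 < q) (c : ℕ → ℂ) :
    ∑ r ∈ range q, ‖∑ b ∈ Ico 1 q, c b * ee ((b : ℝ) / q * (r : ℝ))‖ ^ 2 =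
      q * ∑ b ∈ Ico 1 q, ‖c b‖ ^ 2 := by
  have h1 : ((∑ r ∈ range q, ‖∑ b ∈ Ico 1 q, c b * ee ((b : ℝ) / q * (r : ℝ))‖ ^ 2 : ℝ) : ℂ) =
      ((q * ∑ b ∈ Ico 1 q, ‖c b‖ ^ 2 : ℝ) : ℂ) := by
    rw [Complex.ofReal_sum]
    simp only [nsq_eq, map_sum, map_mul, ee_neg_conj, Finset.sum_mul_sum]
    rw [Finset.sum_comm]
    rw [Complex.ofReal_mul, Complex.ofReal_sum, Finset.mul_sum]
    refine Finset.sum_congr rfl fun b hb => ?_
    rw [Finset.sum_comm]
    rw [nsq_eq]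
    have h2 : ∀ b' ∈ Ico 1 q, ∑ r ∈ range q, c b * ee ((b : ℝ) / q * (r : ℝ)) *
        (conj (c b') * ee (-((b' : ℝ) / q * (r : ℝ)))) =
        if b' = b then (q : ℂ) * (c b * conj (c b)) else 0 := by
      intro b' hb'
      have h3 : ∀ r : ℕ, c b * ee ((b : ℝ) / q * (r : ℝ)) *
          (conj (c b') * ee (-((b' : ℝ) / q * (r : ℝ)))) =
          c b * conj (c b') * ee ((((b : ℤ) - (b' : ℤ) : ℤ) : ℝ) / q * (r : ℝ)) := by
        intro r
        have h4 : (((b : ℤ) - (b' : ℤ) : ℤ) : ℝ) / q * (r : ℝ) =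
            (b : ℝ) / q * (r : ℝ) + -((b' : ℝ) / q * (r : ℝ)) := by
          push_cast
          ring
        rw [h4, ee_add]
        ring
      simp only [h3]
      rw [← Finset.mul_sum]
      rw [mem_Ico] at hb hb'
      split_ifs with h5
      · subst h5
        have h6 : ∀ r ∈ range q, ee ((((b' : ℤ) - (b' : ℤ) : ℤ) : ℝ) / q * (r : ℝ)) = 1 := by
          intro r _
          rw [sub_self]
          have : (((0 : ℤ) : ℝ)) / q * (r : ℝ) = ((0 : ℤ) : ℝ) := by push_cast; ring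
          rw [this, ee_int]
        rw [Finset.sum_congr rfl h6, Finset.sum_const, card_range, nsmul_eq_mul]
        ring
      · rw [orth q hq, mul_zero]
        intro h6
        obtain ⟨k, hk⟩ := h6
        have h7 : |((b : ℤ) - b')| < q := by
          rw [abs_lt]
          constructor <;> omega
        rw [hk, abs_mul, Nat.abs_cast] at h7
        have h8 : |k| < 1 := by
          by_contra h9
          push Not at h9
          have : (q : ℤ) * 1 ≤ (q : ℤ) * |k| := by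
            apply mul_le_mul_of_nonneg_left h9
            positivity
          linarith
        have h9 : k = 0 := Int.abs_lt_one_iff.1 h8
        rw [h9, mul_zero] at hk
        omega
    rw [Finset.sum_congr rfl h2, Finset.sum_ite_eq' , if_pos hb]
    push_cast
    ring
  exact_mod_cast h1

/-- The duality step. -/
lemma dual {ι : Type} (Z : Finset ι) (z : ι → ℝ) (T : ℕ) (f : ℕ → ℂ) (hT : 0 < T)
    (hf : ∀ t, ‖f t‖ ≤ 1) (κ : ℝ) (hκ : 0 ≤ κ)
    (hz : ∀ i ∈ Z, ∀ j ∈ Z, i ≠ j → ‖(∑ t ∈ range T, ee ((z i - z j) * (t : ℝ))) / T‖ ≤ κ) :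
    ∑ i ∈ Z, ‖(∑ t ∈ range T, f t * ee (z i * (t : ℝ))) / T‖ ^ 2 ≤ 1 + Z.card * κ := by
  classical
  set F : ι → ℂ := fun i => (∑ t ∈ range T, f t * ee (z i * (t : ℝ))) / T with hF
  set S : ℝ := ∑ i ∈ Z, ‖F i‖ ^ 2 with hS
  have hT' : (0 : ℝ) < T := by exact_mod_cast hT
  have hTc : (T : ℂ) ≠ 0 := by exact_mod_cast hT.ne'
  have hS0 : 0 ≤ S := Finset.sum_nonneg fun i _ => by positivity
  set H : ℕ → ℂ := fun t => ∑ i ∈ Z, conj (F i) * ee (z i * (t : ℝ)) with hH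
  -- S is a scalar product
  have h1 : ((S * T : ℝ) : ℂ) = ∑ t ∈ range T, f t * H t := by
    rw [Complex.ofReal_mul, hS, Complex.ofReal_sum, hH]
    simp only [nsq_eq, Finset.mul_sum]
    rw [Finset.sum_comm, Finset.sum_mul]
    refine Finset.sum_congr rfl fun i _ => ?_
    have h2 : ∑ t ∈ range T, f t * (conj (F i) * ee (z i * (t : ℝ))) =
        conj (F i) * ∑ t ∈ range T, f t * ee (z i * (t : ℝ)) := by
      rw [Finset.mul_sum]
      refine Finset.sum_congr rfl fun t _ => ?_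
      ring
    rw [h2]
    have h3 : F i * (T : ℂ) = ∑ t ∈ range T, f t * ee (z i * (t : ℝ)) := by
      rw [hF]
      field_simp
    rw [← h3]
    push_cast
    ring
  have h4 : (S * T) ^ 2 ≤ T * ∑ t ∈ range T, ‖H t‖ ^ 2 := by
    have h5 : S * T ≤ ∑ t ∈ range T, ‖H t‖ := by
      have h6 : ‖((S * T : ℝ) : ℂ)‖ = S * T := by
        rw [Complex.norm_real, Real.norm_of_nonneg (by positivity)]
      rw [← h6, h1]
      refine (norm_sum_le _ _).trans (Finset.sum_le_sum fun t _ => ?_)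
      rw [norm_mul]
      have := hf t
      nlinarith [norm_nonneg (H t)]
    have h6 : (∑ t ∈ range T, ‖H t‖) ^ 2 ≤ T * ∑ t ∈ range T, ‖H t‖ ^ 2 := by
      have := sq_sum_le_card_mul_sum_sq (s := range T) (f := fun t => ‖H t‖)
      rwa [card_range] at this
    refine le_trans ?_ h6
    apply pow_le_pow_left₀ (by positivity) h5
  -- the Schur bound
  have h7 : ((∑ t ∈ range T, ‖H t‖ ^ 2 : ℝ) : ℂ) =
      ∑ i ∈ Z, ∑ j ∈ Z, conj (F i) * F j * ∑ t ∈ range T, ee ((z i - z j) * (t : ℝ)) := by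
    rw [Complex.ofReal_sum]
    simp only [nsq_eq, hH, map_sum, map_mul, Complex.conj_conj, ee_neg_conj,
      Finset.sum_mul_sum]
    rw [Finset.sum_comm]
    refine Finset.sum_congr rfl fun i _ => ?_
    rw [Finset.sum_comm]
    refine Finset.sum_congr rfl fun j _ => ?_
    rw [Finset.mul_sum]
    refine Finset.sum_congr rfl fun t _ => ?_
    have h8 : (z i - z j) * (t : ℝ) = z i * (t : ℝ) + -(z j * (t : ℝ)) := by ring
    rw [h8, ee_add]
    ring
  have h9 : ∑ t ∈ range T, ‖H t‖ ^ 2 ≤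
      ∑ i ∈ Z, ∑ j ∈ Z, ‖F i‖ * ‖F j‖ * ‖∑ t ∈ range T, ee ((z i - z j) * (t : ℝ))‖ := by
    have h10 : ‖((∑ t ∈ range T, ‖H t‖ ^ 2 : ℝ) : ℂ)‖ = ∑ t ∈ range T, ‖H t‖ ^ 2 := by
      rw [Complex.norm_real, Real.norm_of_nonneg (Finset.sum_nonneg fun t _ => by positivity)]
    rw [← h10, h7]
    refine (norm_sum_le _ _).trans (Finset.sum_le_sum fun i _ => ?_)
    refine (norm_sum_le _ _).trans (Finset.sum_le_sum fun j _ => ?_)
    rw [norm_mul, norm_mul, Complex.norm_conj]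
  have hK : ∀ i ∈ Z, ∀ j ∈ Z, ‖∑ t ∈ range T, ee ((z i - z j) * (t : ℝ))‖ ≤
      T * ((if i = j then 1 else 0) + κ) := by
    intro i hi j hj
    split_ifs with hij
    · subst hij
      have h11 : ‖∑ t ∈ range T, ee ((z i - z i) * (t : ℝ))‖ ≤ T := by
        refine (norm_sum_le _ _).trans ?_
        simp only [norm_ee]
        rw [Finset.sum_const, card_range, nsmul_eq_mul, mul_one]
      nlinarith
    · have h11 := hz i hi j hj hij
      rw [norm_div, Complex.norm_natCast, div_le_iff₀ hT'] at h11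
      linarith
  have h12 : ∑ i ∈ Z, ∑ j ∈ Z, ‖F i‖ * ‖F j‖ * ‖∑ t ∈ range T, ee ((z i - z j) * (t : ℝ))‖ ≤
      ∑ i ∈ Z, ∑ j ∈ Z, ((‖F i‖ ^ 2 + ‖F j‖ ^ 2) / 2) * (T * ((if i = j then 1 else 0) + κ)) := by
    refine Finset.sum_le_sum fun i hi => Finset.sum_le_sum fun j hj => ?_
    apply mul_le_mul _ (hK i hi j hj) (norm_nonneg _) (by positivity)
    nlinarith [sq_nonneg (‖F i‖ - ‖F j‖)]
  have h13 : ∑ i ∈ Z, ∑ j ∈ Z, ((‖F i‖ ^ 2 + ‖F j‖ ^ 2) / 2) *
      (T * ((if i = j then 1 else 0) + κ)) = T * (1 + Z.card * κ) * S := by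
    have h14 : ∀ i ∈ Z, ∀ j ∈ Z, ((‖F i‖ ^ 2 + ‖F j‖ ^ 2) / 2) *
        (T * ((if i = j then 1 else 0) + κ)) =
        (if i = j then (T : ℝ) * ((‖F i‖ ^ 2 + ‖F j‖ ^ 2) / 2) else 0) +
          (T * κ / 2 * ‖F i‖ ^ 2 + T * κ / 2 * ‖F j‖ ^ 2) := by
      intro i _ j _
      split_ifs <;> ring
    rw [Finset.sum_congr rfl fun i hi => Finset.sum_congr rfl fun j hj => h14 i hi j hj]
    simp only [Finset.sum_add_distrib]
    have h15 : ∑ i ∈ Z, ∑ j ∈ Z, (if i = j then (T : ℝ) * ((‖F i‖ ^ 2 + ‖F j‖ ^ 2) / 2) else 0) =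
        T * S := by
      rw [hS, Finset.mul_sum]
      refine Finset.sum_congr rfl fun i hi => ?_
      rw [Finset.sum_ite_eq, if_pos hi]
      ring
    have h16 : ∑ i ∈ Z, ∑ _j ∈ Z, T * κ / 2 * ‖F i‖ ^ 2 = Z.card * (T * κ / 2) * S := by
      rw [hS, Finset.mul_sum]
      refine Finset.sum_congr rfl fun i hi => ?_
      rw [Finset.sum_const, nsmul_eq_mul]
      ring
    have h17 : ∑ _i ∈ Z, ∑ j ∈ Z, T * κ / 2 * ‖F j‖ ^ 2 = Z.card * (T * κ / 2) * S := by
      rw [Finset.sum_comm, h16]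
    rw [h15, h16, h17]
    ring
  have h18 : (S * T) ^ 2 ≤ T * (T * (1 + Z.card * κ) * S) := by
    refine h4.trans (mul_le_mul_of_nonneg_left ?_ hT'.le)
    rw [← h13]
    exact h9.trans h12
  rcases hS0.eq_or_lt with h0 | h0
  · rw [← h0]
    positivity
  · have h19 : S * (S * T ^ 2) ≤ (1 + Z.card * κ) * (S * T ^ 2) := by nlinarith
    exact le_of_mul_le_mul_right h19 (by positivity)

theorem pf_LSV : T_LSV := by
  intro m T f hT hf
  have hT0 : 0 < T := lt_of_lt_of_le (by positivity) hT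
  have hT' : (0 : ℝ) < T := by exact_mod_cast hT0
  have hprime : ∀ q ∈ oct m, q.Prime ∧ q ≤ 2 ^ (m + 1) := by
    intro q hq
    unfold oct at hq
    rw [Finset.mem_filter, Finset.mem_Ioc] at hq
    exact ⟨hq.2, hq.1.2⟩
  have h1 : ∀ q ∈ oct m, (∑ r ∈ range q,
      ‖(∑ t ∈ range T, f t * (DR q (r + t) : ℂ)) / T‖ ^ 2) / q =
      ∑ b ∈ Ico 1 q, ‖(∑ t ∈ range T, f t * ee ((b : ℝ) / q * (t : ℝ))) / T‖ ^ 2 := by
    intro q hq
    have hq0 : 0 < q := (hprime q hq).1.pos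
    have hq' : (q : ℝ) ≠ 0 := by exact_mod_cast hq0.ne'
    rw [div_eq_iff hq', mul_comm, ← pars q hq0]
    refine Finset.sum_congr rfl fun r _ => ?_
    congr 2
    have h2 : ∀ t, (DR q (r + t) : ℂ) = ∑ b ∈ Ico 1 q, ee ((b : ℝ) / q * ((r + t : ℕ) : ℝ)) := by
      intro t
      rw [← Pool.Agent.H91.BS.pf_DQF q (r + t) hq0]
      unfold DR Pool.Agent.H21.BS.DD
      split_ifs <;> push_cast <;> rfl
    simp only [h2, Finset.mul_sum]
    rw [Finset.sum_comm, Finset.sum_div]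
    refine Finset.sum_congr rfl fun b _ => ?_
    rw [div_mul_eq_mul_div, Finset.sum_mul]
    congr 1
    refine Finset.sum_congr rfl fun t _ => ?_
    have h3 : (b : ℝ) / q * ((r + t : ℕ) : ℝ) = (b : ℝ) / q * (t : ℝ) + (b : ℝ) / q * (r : ℝ) := by
      push_cast
      ring
    rw [h3, ee_add]
    ring
  rw [Finset.sum_congr rfl h1]
  set Z : Finset (Σ _ : ℕ, ℕ) := (oct m).sigma fun q => Ico 1 q with hZ
  have h4 : ∑ q ∈ oct m, ∑ b ∈ Ico 1 q,
      ‖(∑ t ∈ range T, f t * ee ((b : ℝ) / q * (t : ℝ))) / T‖ ^ 2 =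
      ∑ i ∈ Z, ‖(∑ t ∈ range T, f t * ee (((i.2 : ℝ) / (i.1 : ℝ)) * (t : ℝ))) / T‖ ^ 2 := by
    rw [hZ, Finset.sum_sigma]
  rw [h4]
  have hsep : ∀ i ∈ Z, ∀ j ∈ Z, i ≠ j →
      1 / (2 : ℝ) ^ (2 * m + 2) ≤ nd ((i.2 : ℝ) / (i.1 : ℝ) - (j.2 : ℝ) / (j.1 : ℝ)) := by
    rintro ⟨q, b⟩ hi ⟨q', b'⟩ hj hne
    rw [hZ, Finset.mem_sigma, Finset.mem_Ico] at hi hj
    obtain ⟨hq, hb⟩ := hi
    obtain ⟨hq', hb'⟩ := hj
    dsimp only at hq hb hq' hb' ⊢
    have hp := hprime q hq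
    have hp' := hprime q' hq'
    have hq0 : (0 : ℝ) < q := by exact_mod_cast hp.1.pos
    have hq0' : (0 : ℝ) < q' := by exact_mod_cast hp'.1.pos
    have h5 : (b : ℝ) / q - (b' : ℝ) / q' =
        ((b * q' - b' * q : ℤ) : ℝ) / ((q * q' : ℕ) : ℝ) := by
      push_cast
      field_simp
    have h6 : ¬ ((q * q' : ℕ) : ℤ) ∣ (b * q' - b' * q : ℤ) := by
      intro h7
      have h8 : (q : ℤ) ∣ (b * q' - b' * q : ℤ) :=
        dvd_trans ⟨(q' : ℤ), by push_cast; ring⟩ h7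
      have h9 : (q : ℤ) ∣ (b : ℤ) * q' := by
        have := dvd_add h8 (Dvd.intro_left (b' : ℤ) rfl : (q : ℤ) ∣ b' * q)
        rwa [sub_add_cancel] at this
      have h10 : q ∣ b * q' := by exact_mod_cast h9
      rcases (Nat.Prime.dvd_mul hp.1).1 h10 with h11 | h11
      · have := Nat.le_of_dvd (by omega) h11
        omega
      · have h12 : q = q' := (Nat.prime_dvd_prime_iff_eq hp.1 hp'.1).1 h11
        subst h12
        obtain ⟨k, hk⟩ := h7
        have h13 : (b : ℤ) - b' = q * k := by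
          have h14 : (q : ℤ) * ((b : ℤ) - b') = q * (q * k) := by
            push_cast at hk
            linarith
          have h15 : (q : ℤ) ≠ 0 := by exact_mod_cast hp.1.pos.ne'
          exact mul_left_cancel₀ h15 h14
        have h16 : |((b : ℤ) - b')| < q := by
          rw [abs_lt]
          constructor <;> omega
        rw [h13, abs_mul, Nat.abs_cast] at h16
        have h17 : |k| < 1 := by
          by_contra h18
          push Not at h18
          have : (q : ℤ) * 1 ≤ (q : ℤ) * |k| := by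
            apply mul_le_mul_of_nonneg_left h18
            positivity
          linarith
        have h18 : k = 0 := Int.abs_lt_one_iff.1 h17
        rw [h18, mul_zero] at h13
        apply hne
        have h19 : b = b' := by omega
        rw [h19]
    rw [h5]
    refine le_trans ?_ (nd_frac _ (q * q') (Nat.mul_pos hp.1.pos hp'.1.pos) h6)
    apply one_div_le_one_div_of_le (by push_cast; exact mul_pos hq0 hq0')
    push_cast
    have h20 : (q : ℝ) ≤ 2 ^ (m + 1) := by exact_mod_cast hp.2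
    have h21 : (q' : ℝ) ≤ 2 ^ (m + 1) := by exact_mod_cast hp'.2
    calc (q : ℝ) * q' ≤ 2 ^ (m + 1) * 2 ^ (m + 1) := mul_le_mul h20 h21 hq0'.le (by positivity)
      _ = 2 ^ (2 * m + 2) := by rw [← pow_add]; congr 1; ring
  have hd := dual Z (fun i => (i.2 : ℝ) / (i.1 : ℝ)) T f hT0 hf (2 ^ (2 * m + 1) / T)
    (by positivity) (by
      intro i hi j hj hij
      have h5 := hsep i hi j hj hij
      have h6 : 0 < nd ((i.2 : ℝ) / (i.1 : ℝ) - (j.2 : ℝ) / (j.1 : ℝ)) :=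
        lt_of_lt_of_le (by positivity) h5
      have h7 := geo0 _ h6 T
      rw [norm_div, Complex.norm_natCast]
      apply div_le_div_of_nonneg_right _ hT'.le
      refine h7.trans ?_
      rw [div_le_iff₀ (mul_pos two_pos h6)]
      have h8 : (1 : ℝ) = 2 ^ (2 * m + 1) * (2 * (1 / 2 ^ (2 * m + 2))) := by
        rw [pow_succ (2 : ℝ) (2 * m + 1)]
        field_simp
      calc (1 : ℝ) = 2 ^ (2 * m + 1) * (2 * (1 / 2 ^ (2 * m + 2))) := h8
        _ ≤ _ := by
          apply mul_le_mul_of_nonneg_left _ (by positivity)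
          exact mul_le_mul_of_nonneg_left h5 (by norm_num))
  refine hd.trans ?_
  have hcard : (Z.card : ℝ) ≤ 2 ^ (2 * m + 1) := by
    have h5 : Z.card ≤ 2 ^ (2 * m + 1) := by
      rw [hZ, Finset.card_sigma]
      have h6 : (oct m).card ≤ 2 ^ m := by
        unfold oct
        refine (Finset.card_filter_le _ _).trans ?_
        rw [Nat.card_Ioc, pow_succ]
        omega
      calc ∑ q ∈ oct m, (Ico 1 q).card ≤ ∑ q ∈ oct m, 2 ^ (m + 1) := by
            refine Finset.sum_le_sum fun q hq => ?_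
            rw [Nat.card_Ico]
            have := (hprime q hq).2
            omega
        _ = (oct m).card * 2 ^ (m + 1) := by rw [Finset.sum_const, smul_eq_mul]
        _ ≤ 2 ^ m * 2 ^ (m + 1) := Nat.mul_le_mul_right _ h6
        _ = 2 ^ (2 * m + 1) := by rw [← pow_add]; congr 1; ring
    exact_mod_cast h5
  have hTT : (2 : ℝ) ^ (4 * m + 4) ≤ T := by exact_mod_cast hT
  have h9 : (Z.card : ℝ) * (2 ^ (2 * m + 1) / T) ≤ 1 := by
    rw [mul_div_assoc', div_le_one hT']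
    calc (Z.card : ℝ) * 2 ^ (2 * m + 1) ≤ 2 ^ (2 * m + 1) * 2 ^ (2 * m + 1) :=
          mul_le_mul_of_nonneg_right hcard (by positivity)
      _ = 2 ^ (4 * m + 2) := by rw [← pow_add]; congr 1; ring
      _ ≤ 2 ^ (4 * m + 4) := pow_le_pow_right₀ (by norm_num) (by omega)
      _ ≤ T := hTT
  linarith

end Pool.Agent.H97.ESS
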